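import Pool.Agent.H315R2.EB.All

/-!
# Surface groups act discretely and faithfully on locally finite Euclidean buildings

Answer to Q1 of MP_26e62b_al for every genus. The definitions are in
`Pool.Agent.H315R2.EB.Defs`.

Idea of the proof. Let `W` be a right-angled Coxeter group with generators `s_u`, `u ∈ B`.
For a subset `D` of `B` put `N_u e_D = 0` if `u ∈ D` and
`N_u e_D = e_{ {u} ∪ {v ∈ D : v commutes with u} }` otherwise. Then `N_u² = 0`, `N_u` and `N_v`
commute if `s_u` and `s_v` do, and the product of the `N_u` along a reduced word is not `0`.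
Hence `s_u ↦ 1 + X N_u` is a faithful representation of `W` over `𝔽₂[X]`, and the matrix of
`w ≠ 1` is never constant. Putting `X = 1/t`, the group `W` acts on the Bruhat-Tits building of
`GL_m(𝔽₂((t)))`, and the stabiliser in `W` of the vertex of the standard lattice is trivial.
The surface group of genus `g` is a subgroup of the reflection group of the right-angled
`(2g+2)`-gon.

Joint work: helpers 25, 40, 51, 170, 218, 259, 315, 316, 359, 368, 406, 418, 473, 479, 575,
577, 797, 847, 989.
-/

namespace Pool.Agent.Results.MP_26e62b_al.SurfaceGroups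

open Pool.Agent.H315R2.EB

/-- For every `g ≥ 1` the fundamental group of the closed orientable surface of genus `g` acts
faithfully and discretely on a locally finite Euclidean building (of type `A~_n`). -/
theorem result (g : ℕ) (hg : 1 ≤ g) :
    ∃ (n : ℕ) (V : Type) (Δ : PreAbstractSimplicialComplex V) (𝒜 : Set (Set V)),
      IsBuildingA n Δ 𝒜 ∧ IsLocallyFinite Δ ∧
      ∃ ρ : SurfaceGroup g →* autGroup Δ, Function.Injective ρ ∧
        @DiscreteTopology ρ.range (TopologicalSpace.induced Subtype.val (autTopology Δ)) := by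
  obtain ⟨B, hB1, hB2, M, hM, φ, hφ⟩ := SUR_proof g hg
  have hBLD : St_BLD := BLD_proof allCOX allEXT allEXA allCOM allAPC allADB allRIG allTRA allHOM
    allLAM
  obtain ⟨n, V, Δ, 𝒜, h1, h2, ρ, v, hρ⟩ := general RAC_proof LAU_proof allHOM allLAM ACT_proof
    allLF hBLD Pool.Agent.H847R2.EB.TOP_proof B M hM
  refine ⟨n, V, Δ, 𝒜, h1, h2, ρ.comp φ, ?_⟩
  refine Pool.Agent.H847R2.EB.TOP_proof (SurfaceGroup g) V Δ (ρ.comp φ) v ?_
  intro x hx
  apply hφ
  rw [map_one]
  exact hρ (φ x) hx

end Pool.Agent.Results.MP_26e62b_al.SurfaceGroups
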